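import Pool.Agent.H486.LP.Stm2

/-!
# Project LP (owner helper486), task P26: structure constants of `T(p²) T(p ^ (2 m))`
-/

set_option autoImplicit false

open UpperHalfPlane MeasureTheory Metric ModularGroup CongruenceSubgroup
open scoped MatrixGroups ENNReal Modular Topology NNReal ComplexConjugate Real

namespace Pool.Agent.H974.LP

open Pool.Agent.H369R2 Pool.Agent.N799.DT Pool.Agent.H486.LF Pool.Agent.H486.LG
open Pool.Agent.H486.LP

noncomputable section

theorem cnt1 (n : ℕ) (hn : 0 < n) (b : ℤ) :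
    ((Finset.range n).filter (fun β : ℕ => (n : ℤ) ∣ b + β)).card = 1 := by
  rw [Finset.card_eq_one]
  have hn' : (0 : ℤ) < n := by exact_mod_cast hn
  have h0 := Int.emod_nonneg (-b) hn'.ne'
  have h1 := Int.emod_lt_of_pos (-b) hn'
  refine ⟨((-b) % n).toNat, ?_⟩
  ext β
  simp only [Finset.mem_filter, Finset.mem_range, Finset.mem_singleton]
  constructor
  · rintro ⟨h2, h3⟩
    have h4 : (-b) % n = (β : ℤ) := by
      have h5 : (n : ℤ) ∣ -b - β := by
        have := (dvd_neg (a := (n : ℤ))).2 h3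
        have e : -(b + (β : ℤ)) = -b - β := by ring
        rwa [e] at this
      have h7 : (-b) % n = (β : ℤ) % n := (Int.emod_eq_emod_iff_emod_sub_eq_zero).2 (Int.emod_eq_zero_of_dvd h5)
      rw [h7]
      exact Int.emod_eq_of_lt (by positivity) (by exact_mod_cast h2)
    rw [h4]
    simp
  · intro h2
    have h3 : (β : ℤ) = (-b) % n := by
      rw [h2]
      exact Int.toNat_of_nonneg h0
    refine ⟨?_, ?_⟩
    · have : (β : ℤ) < n := by rw [h3]; exact h1
      exact_mod_cast this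
    · rw [h3]
      have := Int.emod_add_mul_ediv (-b) n
      refine ⟨-((-b) / n), ?_⟩
      linear_combination this

theorem cntk (n : ℕ) (hn : 0 < n) (b : ℤ) (k : ℕ) :
    ((Finset.range (k * n)).filter (fun β : ℕ => (n : ℤ) ∣ b + β)).card = k := by
  induction k with
  | zero => simp
  | succ k ih =>
    rw [Finset.card_filter] at ih ⊢
    rw [Nat.succ_mul, Finset.sum_range_add, ih]
    have h := cnt1 n hn b
    rw [Finset.card_filter] at h
    have h2 : (∑ x ∈ Finset.range n, if (n : ℤ) ∣ b + ((k * n + x : ℕ) : ℤ) then 1 else 0) =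
        ∑ x ∈ Finset.range n, if (n : ℤ) ∣ b + (x : ℤ) then 1 else 0 := by
      refine Finset.sum_congr rfl fun x _ => ?_
      have h3 : ((n : ℤ) ∣ b + ((k * n + x : ℕ) : ℤ)) ↔ ((n : ℤ) ∣ b + (x : ℤ)) := by
        have e : b + ((k * n + x : ℕ) : ℤ) = (b + x) + n * k := by push_cast; ring
        rw [e]
        exact ⟨fun h => (dvd_add_left (dvd_mul_right _ _)).1 h,
          fun h => dvd_add h (dvd_mul_right _ _)⟩
      simp only [h3]
    rw [h2, h]

/-- the representatives -/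
def B (p i β : ℕ) : Mt := !![(p : ℤ) ^ i, (β : ℤ); 0, (p : ℤ) ^ (2 - i)]

/-- the indices of the representatives -/
def J (p : ℕ) : Finset ((_ : ℕ) × ℕ) :=
  (Finset.range 3).sigma (fun i => Finset.range (p ^ (2 - i)))

theorem mem_J (p : ℕ) (j : (_ : ℕ) × ℕ) : j ∈ J p ↔ j.1 < 3 ∧ j.2 < p ^ (2 - j.1) := by
  simp only [J, Finset.mem_sigma, Finset.mem_range]

theorem det_B (p i β : ℕ) (hi : i < 3) : (B p i β).det = (p : ℤ) ^ 2 := by
  rw [B, Matrix.det_fin_two_of, mul_zero, sub_zero, ← pow_add]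
  congr 1
  omega

theorem B_inj (p : ℕ) (hp : p.Prime) (j j' : (_ : ℕ) × ℕ) (hj : j ∈ J p) (hj' : j' ∈ J p)
    (g : SL(2, ℤ)) (h : B p j.1 j.2 = (g : Mt) * B p j'.1 j'.2) : j = j' := by
  obtain ⟨i, β⟩ := j
  obtain ⟨i', β'⟩ := j'
  rw [mem_J] at hj hj'
  simp only at hj hj' h
  have hp0 : (0 : ℤ) < p := by exact_mod_cast hp.pos
  have h00 := congrFun (congrFun h 0) 0
  have h01 := congrFun (congrFun h 0) 1
  have h10 := congrFun (congrFun h 1) 0
  have h11 := congrFun (congrFun h 1) 1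
  simp only [B, Matrix.mul_apply, Fin.sum_univ_two, Matrix.of_apply, Matrix.cons_val', Matrix.cons_val_zero,
    Matrix.cons_val_one, mul_zero, add_zero, Matrix.cons_val_fin_one] at h00 h01 h10 h11
  have hz : (g : Mt) 1 0 = 0 := by
    have : (p : ℤ) ^ i' ≠ 0 := pow_ne_zero _ hp0.ne'
    rcases mul_eq_zero.1 h10.symm with h | h
    · exact h
    · exact absurd h this
  have hdet := g.det_coe
  rw [Matrix.det_fin_two, hz, mul_zero, sub_zero] at hdet
  have hx : (g : Mt) 0 0 = 1 := by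
    have h1 : (0 : ℤ) < (g : Mt) 0 0 := by
      have h2 : (0 : ℤ) < (g : Mt) 0 0 * (p : ℤ) ^ i' := by rw [← h00]; positivity
      exact (mul_pos_iff_of_pos_right (by positivity)).1 h2
    rcases Int.eq_one_or_neg_one_of_mul_eq_one hdet with h | h
    · exact h
    · rw [h] at h1; norm_num at h1
  rw [hx, one_mul] at h00 h01 hdet
  have hii : i = i' := by
    have h3 : p ^ i = p ^ i' := by exact_mod_cast h00
    exact Nat.pow_right_injective hp.two_le h3
  subst hii
  have hββ : β = β' := by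
    have h4 : (β : ℤ) % (p : ℤ) ^ (2 - i) = (β' : ℤ) % (p : ℤ) ^ (2 - i) := by
      rw [h01, Int.add_mul_emod_self_right]
    rw [Int.emod_eq_of_lt (by positivity) (by exact_mod_cast hj.2),
      Int.emod_eq_of_lt (by positivity) (by exact_mod_cast hj'.2)] at h4
    exact_mod_cast h4
  subst hββ
  rfl

theorem complete (p : ℕ) (hp : p.Prime) (A : Mt) (hA : A.det = (p : ℤ) ^ 2) :
    ∃ j ∈ J p, ∃ g : SL(2, ℤ), A = (g : Mt) * B p j.1 j.2 := by
  have hp0 : (0 : ℤ) < p := by exact_mod_cast hp.pos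
  have hd : A 0 0 * A 1 1 - A 0 1 * A 1 0 = (p : ℤ) ^ 2 := by rw [← Matrix.det_fin_two]; exact hA
  have hne : A 0 0 ≠ 0 ∨ A 1 0 ≠ 0 := by
    by_contra hcon
    push Not at hcon
    rw [hcon.1, hcon.2] at hd
    have : (p : ℤ) ^ 2 ≠ 0 := by positivity
    apply this
    rw [← hd]
    ring
  have hh0 : 0 < Int.gcd (A 0 0) (A 1 0) := Int.gcd_pos_iff.2 hne
  obtain ⟨a', c', hco, ha, hc⟩ := Int.exists_gcd_one hh0
  set h : ℤ := (Int.gcd (A 0 0) (A 1 0) : ℤ) with hh
  have hhpos : 0 < h := by rw [hh]; exact_mod_cast hh0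
  have hco' : IsCoprime a' c' := Int.isCoprime_iff_gcd_eq_one.2 hco
  obtain ⟨x, y, hxy⟩ := hco'
  set b := A 0 1
  set d := A 1 1
  have hprod : h * (a' * d - c' * b) = (p : ℤ) ^ 2 := by
    rw [← hd, ha, hc]
    ring
  obtain ⟨i, hi, hhi⟩ : ∃ i ≤ 2, h = (p : ℤ) ^ i := by
    have h1 : Int.gcd (A 0 0) (A 1 0) ∣ p ^ 2 := by
      have : h ∣ (p : ℤ) ^ 2 := ⟨_, hprod.symm⟩
      rw [hh] at this
      exact_mod_cast this
    obtain ⟨i, hi, h2⟩ := (Nat.dvd_prime_pow hp).1 h1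
    refine ⟨i, hi, ?_⟩
    rw [hh, h2]
    push_cast
    rfl
  have h22 : a' * d - c' * b = (p : ℤ) ^ (2 - i) := by
    have h1 : (p : ℤ) ^ i * (a' * d - c' * b) = (p : ℤ) ^ i * (p : ℤ) ^ (2 - i) := by
      rw [← hhi, hprod, hhi, ← pow_add]
      congr 1
      omega
    exact mul_left_cancel₀ (pow_ne_zero _ hp0.ne') h1
  have hq0 : (0 : ℤ) < (p : ℤ) ^ (2 - i) := by positivity
  set e := x * b + y * d with he
  have he0 := Int.emod_nonneg e hq0.ne'
  have he1 := Int.emod_lt_of_pos e hq0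
  set β := (e % (p : ℤ) ^ (2 - i)).toNat with hβ
  have hβe : (β : ℤ) = e % (p : ℤ) ^ (2 - i) := Int.toNat_of_nonneg he0
  refine ⟨⟨i, β⟩, ?_, ?_⟩
  · rw [mem_J]
    refine ⟨by simp only; omega, ?_⟩
    simp only
    have : (β : ℤ) < (p : ℤ) ^ (2 - i) := by rw [hβe]; exact he1
    exact_mod_cast this
  · let g : SL(2, ℤ) := ⟨!![a', -y; c', x], by
      rw [Matrix.det_fin_two_of]
      linear_combination hxy⟩
    let u : SL(2, ℤ) := ⟨!![1, e / (p : ℤ) ^ (2 - i); 0, 1], by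
      rw [Matrix.det_fin_two_of]
      ring⟩
    refine ⟨g * u, ?_⟩
    have hdiv := Int.emod_add_mul_ediv e ((p : ℤ) ^ (2 - i))
    have hu : (u : Mt) * B p i β = !![(p : ℤ) ^ i, e; 0, (p : ℤ) ^ (2 - i)] := by
      show !![1, e / (p : ℤ) ^ (2 - i); 0, 1] * !![(p : ℤ) ^ i, (β : ℤ); 0, (p : ℤ) ^ (2 - i)] = _
      rw [Matrix.mul_fin_two]
      have e1 : 1 * (β : ℤ) + e / (p : ℤ) ^ (2 - i) * (p : ℤ) ^ (2 - i) = e := by
        rw [hβe]
        linear_combination hdiv
      rw [e1]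
      simp
    simp only
    rw [Matrix.SpecialLinearGroup.coe_mul, Matrix.mul_assoc, hu]
    show A = !![a', -y; c', x] * !![(p : ℤ) ^ i, e; 0, (p : ℤ) ^ (2 - i)]
    rw [Matrix.mul_fin_two, ← hhi, ← h22, he]
    have h11 : A 0 0 = a' * h + -y * 0 := by rw [ha]; ring
    have h12 : A 0 1 = a' * (x * b + y * d) + -y * (a' * d - c' * b) := by
      show b = _
      linear_combination (-b) * hxy
    have h21 : A 1 0 = c' * h + x * 0 := by rw [hc]; ring
    have h23 : A 1 1 = c' * (x * b + y * d) + x * (a' * d - c' * b) := by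
      show d = _
      linear_combination (-d) * hxy
    rw [← h11, ← h12, ← h21, ← h23]
    exact Matrix.eta_fin_two A

/-- the conditions for an upper triangular `E` -/
theorem P_iff (p : ℕ) (i β : ℕ) (a b d : ℤ) :
    (∀ k l, (p : ℤ) ^ 2 ∣ (B p i β * (!![a, b; 0, d] : Mt)) k l) ↔
      (p : ℤ) ^ 2 ∣ (p : ℤ) ^ i * a ∧ (p : ℤ) ^ 2 ∣ (p : ℤ) ^ i * b + β * d ∧
        (p : ℤ) ^ 2 ∣ (p : ℤ) ^ (2 - i) * d := by
  rw [B, Matrix.mul_fin_two]
  simp only [Fin.forall_fin_two, Matrix.of_apply, Matrix.cons_val', Matrix.cons_val_zero,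
    Matrix.cons_val_one, mul_zero, add_zero, zero_mul, zero_add, Matrix.cons_val_fin_one, dvd_zero,
    true_and]
  tauto

theorem E_iff (p i : ℕ) (a b d : ℤ) :
    (∀ k l, (p : ℤ) ^ i ∣ (!![a, b; 0, d] : Mt) k l) ↔
      (p : ℤ) ^ i ∣ a ∧ (p : ℤ) ^ i ∣ b ∧ (p : ℤ) ^ i ∣ d := by
  simp only [Fin.forall_fin_two, Matrix.of_apply, Matrix.cons_val', Matrix.cons_val_zero,
    Matrix.cons_val_one, Matrix.cons_val_fin_one, dvd_zero, true_and]
  tauto

theorem card_J (p : ℕ) (Q : ((_ : ℕ) × ℕ) → Prop) [DecidablePred Q] :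
    ((J p).filter Q).card = ((Finset.range (p ^ 2)).filter (fun β => Q ⟨0, β⟩)).card +
      ((Finset.range p).filter (fun β => Q ⟨1, β⟩)).card +
      ((Finset.range 1).filter (fun β => Q ⟨2, β⟩)).card := by
  have h1 : (J p).filter Q = (Finset.range 3).sigma
      (fun i => (Finset.range (p ^ (2 - i))).filter (fun β => Q ⟨i, β⟩)) := by
    ext ⟨i, β⟩
    simp only [J, Finset.mem_filter, Finset.mem_sigma]
    tauto
  rw [h1, Finset.card_sigma, Finset.sum_range_succ, Finset.sum_range_succ, Finset.sum_range_one]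
  simp

theorem dvd_pow_pow_iff' (p : ℕ) (hp : p.Prime) (a b : ℕ) :
    (p : ℤ) ^ a ∣ (p : ℤ) ^ b ↔ a ≤ b := by
  have h : ((p : ℤ) ^ a ∣ (p : ℤ) ^ b) ↔ (p ^ a ∣ p ^ b) := by
    constructor
    · intro h
      exact_mod_cast h
    · intro h
      exact_mod_cast h
  rw [h, Nat.pow_dvd_pow_iff_le_right hp.one_lt]

theorem count (p : ℕ) (hp : p.Prime) (α δ : ℕ) (hαδ : 4 ≤ α + δ) (b : ℤ) (E : Mt)
    (hE : E = !![(p : ℤ) ^ α, b; 0, (p : ℤ) ^ δ]) :
    ((J p).filter (fun j => ∀ k l, (p : ℤ) ^ 2 ∣ (B p j.1 j.2 * E) k l)).card =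
    ∑ i ∈ (Finset.range 3).filter (fun i => ∀ k l, (p : ℤ) ^ i ∣ E k l), p ^ i := by
  have hp0 : (0 : ℤ) < p := by exact_mod_cast hp.pos
  have hP : ∀ i β : ℕ, (∀ k l, (p : ℤ) ^ 2 ∣ (B p i β * E) k l) ↔
      (2 ≤ i + α ∧ (p : ℤ) ^ 2 ∣ (p : ℤ) ^ i * b + β * (p : ℤ) ^ δ ∧ 2 ≤ 2 - i + δ) := by
    intro i β
    rw [hE, P_iff]
    simp only [← pow_add, dvd_pow_pow_iff' p hp]
  have hE' : ∀ i : ℕ, (∀ k l, (p : ℤ) ^ i ∣ E k l) ↔ (i ≤ α ∧ (p : ℤ) ^ i ∣ b ∧ i ≤ δ) := by
    intro i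
    rw [hE, E_iff]
    simp only [dvd_pow_pow_iff' p hp]
  rw [card_J, Finset.sum_filter, Finset.sum_range_succ, Finset.sum_range_succ, Finset.sum_range_one]
  have z0 : (∀ k l, (p : ℤ) ^ 0 ∣ E k l) := (hE' 0).2 ⟨by omega, by simp, by omega⟩
  rw [if_pos z0, pow_zero]
  rcases Nat.lt_or_ge δ 1 with hδ | hδ
  · -- `δ = 0`
    obtain rfl : δ = 0 := by omega
    have c0 : ((Finset.range (p ^ 2)).filter (fun β : ℕ =>
        ∀ k l, (p : ℤ) ^ 2 ∣ (B p 0 β * E) k l)).card = 1 := by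
      refine Eq.trans (congrArg Finset.card (Finset.filter_congr fun β _ => ?_))
        (cnt1 (p ^ 2) (pow_pos hp.pos 2) b)
      rw [hP]
      have e : (p : ℤ) ^ 0 * b + β * (p : ℤ) ^ 0 = b + β := by ring
      rw [e, Nat.cast_pow]
      constructor
      · rintro ⟨_, h, _⟩
        exact h
      · intro h
        exact ⟨by omega, h, by omega⟩
    have c1 : ((Finset.range p).filter (fun β : ℕ =>
        ∀ k l, (p : ℤ) ^ 2 ∣ (B p 1 β * E) k l)).card = 0 := by
      rw [Finset.card_eq_zero, Finset.filter_eq_empty_iff]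
      intro β _ h
      obtain ⟨_, _, h⟩ := (hP 1 β).1 h
      omega
    have c2 : ((Finset.range 1).filter (fun β : ℕ =>
        ∀ k l, (p : ℤ) ^ 2 ∣ (B p 2 β * E) k l)).card = 0 := by
      rw [Finset.card_eq_zero, Finset.filter_eq_empty_iff]
      intro β _ h
      obtain ⟨_, _, h⟩ := (hP 2 β).1 h
      omega
    rw [c0, c1, c2]
    have z1 : ¬ (∀ k l, (p : ℤ) ^ 1 ∣ E k l) := by
      intro h
      obtain ⟨_, _, h⟩ := (hE' 1).1 h
      omega
    have z2 : ¬ (∀ k l, (p : ℤ) ^ 2 ∣ E k l) := by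
      intro h
      obtain ⟨_, _, h⟩ := (hE' 2).1 h
      omega
    rw [if_neg z1, if_neg z2]
    try norm_num
  · rcases Nat.lt_or_ge δ 2 with hδ2 | hδ2
    · -- `δ = 1`
      obtain rfl : δ = 1 := by omega
      have c1 : ((Finset.range p).filter (fun β : ℕ =>
          ∀ k l, (p : ℤ) ^ 2 ∣ (B p 1 β * E) k l)).card = 1 := by
        refine Eq.trans (congrArg Finset.card (Finset.filter_congr fun β _ => ?_))
          (cnt1 p hp.pos b)
        rw [hP]
        have e : (p : ℤ) ^ 1 * b + β * (p : ℤ) ^ 1 = p * (b + β) := by ring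
        rw [e, pow_two, mul_dvd_mul_iff_left hp0.ne']
        constructor
        · rintro ⟨_, h, _⟩
          exact h
        · intro h
          exact ⟨by omega, h, by omega⟩
      have c2 : ((Finset.range 1).filter (fun β : ℕ =>
          ∀ k l, (p : ℤ) ^ 2 ∣ (B p 2 β * E) k l)).card = 0 := by
        rw [Finset.card_eq_zero, Finset.filter_eq_empty_iff]
        intro β _ h
        obtain ⟨_, _, h⟩ := (hP 2 β).1 h
        omega
      have z2 : ¬ (∀ k l, (p : ℤ) ^ 2 ∣ E k l) := by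
        intro h
        obtain ⟨_, _, h⟩ := (hE' 2).1 h
        omega
      rw [c1, c2, if_neg z2]
      by_cases hb : (p : ℤ) ∣ b
      · obtain ⟨b', rfl⟩ := hb
        have c0 : ((Finset.range (p ^ 2)).filter (fun β : ℕ =>
            ∀ k l, (p : ℤ) ^ 2 ∣ (B p 0 β * E) k l)).card = p := by
          have h1 := cntk p hp.pos b' p
          rw [← pow_two] at h1
          refine Eq.trans (congrArg Finset.card (Finset.filter_congr fun β _ => ?_)) h1
          rw [hP]
          have e : (p : ℤ) ^ 0 * (p * b') + β * (p : ℤ) ^ 1 = p * (b' + β) := by ring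
          rw [e, pow_two, mul_dvd_mul_iff_left hp0.ne']
          constructor
          · rintro ⟨_, h, _⟩
            exact h
          · intro h
            exact ⟨by omega, h, by omega⟩
        have z1 : (∀ k l, (p : ℤ) ^ 1 ∣ E k l) :=
          (hE' 1).2 ⟨by omega, by rw [pow_one]; exact dvd_mul_right _ _, le_refl 1⟩
        rw [c0, if_pos z1]
        ring
      · have c0 : ((Finset.range (p ^ 2)).filter (fun β : ℕ =>
            ∀ k l, (p : ℤ) ^ 2 ∣ (B p 0 β * E) k l)).card = 0 := by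
          rw [Finset.card_eq_zero, Finset.filter_eq_empty_iff]
          intro β _ h
          obtain ⟨_, h, _⟩ := (hP 0 β).1 h
          apply hb
          have h3 : (p : ℤ) ∣ (p : ℤ) ^ 0 * b + β * (p : ℤ) ^ 1 :=
            (dvd_pow_self (p : ℤ) two_ne_zero).trans h
          rw [pow_zero, one_mul, pow_one] at h3
          exact (dvd_add_left (dvd_mul_left _ _)).1 h3
        have z1 : ¬ (∀ k l, (p : ℤ) ^ 1 ∣ E k l) := by
          intro h
          obtain ⟨_, h, _⟩ := (hE' 1).1 h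
          rw [pow_one] at h
          exact hb h
        rw [c0, if_neg z1]
        try norm_num
    · -- `2 ≤ δ`
      have c0 : ((Finset.range (p ^ 2)).filter (fun β : ℕ =>
          ∀ k l, (p : ℤ) ^ 2 ∣ (B p 0 β * E) k l)).card =
          if (∀ k l, (p : ℤ) ^ 2 ∣ E k l) then p ^ 2 else 0 := by
        have hiff : ∀ β : ℕ, (∀ k l, (p : ℤ) ^ 2 ∣ (B p 0 β * E) k l) ↔
            (∀ k l, (p : ℤ) ^ 2 ∣ E k l) := by
          intro β
          rw [hP, hE']
          have h3 : (p : ℤ) ^ 2 ∣ (β : ℤ) * (p : ℤ) ^ δ :=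
            (pow_dvd_pow (p : ℤ) hδ2).trans (dvd_mul_left _ _)
          rw [pow_zero, one_mul, dvd_add_left h3, zero_add]
          constructor
          · rintro ⟨h4, h5, _⟩
            exact ⟨h4, h5, hδ2⟩
          · rintro ⟨h4, h5, _⟩
            exact ⟨h4, h5, by omega⟩
        by_cases hc : (∀ k l, (p : ℤ) ^ 2 ∣ E k l)
        · rw [if_pos hc, Finset.filter_true_of_mem (fun β _ => (hiff β).2 hc), Finset.card_range]
        · rw [if_neg hc, Finset.card_eq_zero, Finset.filter_eq_empty_iff]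
          exact fun β _ h => hc ((hiff β).1 h)
      have c1 : ((Finset.range p).filter (fun β : ℕ =>
          ∀ k l, (p : ℤ) ^ 2 ∣ (B p 1 β * E) k l)).card =
          if (∀ k l, (p : ℤ) ^ 1 ∣ E k l) then p ^ 1 else 0 := by
        have hiff : ∀ β : ℕ, (∀ k l, (p : ℤ) ^ 2 ∣ (B p 1 β * E) k l) ↔
            (∀ k l, (p : ℤ) ^ 1 ∣ E k l) := by
          intro β
          rw [hP, hE']
          have h3 : (p : ℤ) ^ 2 ∣ (β : ℤ) * (p : ℤ) ^ δ :=
            (pow_dvd_pow (p : ℤ) hδ2).trans (dvd_mul_left _ _)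
          rw [dvd_add_left h3, pow_two, pow_one, mul_dvd_mul_iff_left hp0.ne']
          constructor
          · rintro ⟨h4, h5, _⟩
            exact ⟨by omega, h5, by omega⟩
          · rintro ⟨h4, h5, _⟩
            exact ⟨by omega, h5, by omega⟩
        by_cases hc : (∀ k l, (p : ℤ) ^ 1 ∣ E k l)
        · rw [if_pos hc, Finset.filter_true_of_mem (fun β _ => (hiff β).2 hc), Finset.card_range,
            pow_one]
        · rw [if_neg hc, Finset.card_eq_zero, Finset.filter_eq_empty_iff]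
          exact fun β _ h => hc ((hiff β).1 h)
      have c2 : ((Finset.range 1).filter (fun β : ℕ =>
          ∀ k l, (p : ℤ) ^ 2 ∣ (B p 2 β * E) k l)).card = 1 := by
        rw [Finset.filter_true_of_mem, Finset.card_range]
        intro β _
        refine (hP 2 β).2 ⟨by omega, ?_, by omega⟩
        exact dvd_add (dvd_mul_right _ _) ((pow_dvd_pow (p : ℤ) hδ2).trans (dvd_mul_left _ _))
      rw [c0, c1, c2]
      ring

/-- divisibility is invariant under multiplication on the left -/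
theorem dvd_left_iff (r : ℤ) (g : SL(2, ℤ)) (M : Mt) :
    (∀ k l, r ∣ ((g : Mt) * M) k l) ↔ (∀ k l, r ∣ M k l) := by
  have h1 : ∀ (u : SL(2, ℤ)) (M : Mt), (∀ k l, r ∣ M k l) → ∀ k l, r ∣ ((u : Mt) * M) k l := by
    intro u M h k l
    rw [Matrix.mul_apply]
    exact Finset.dvd_sum fun i _ => (h i l).mul_left _
  refine ⟨fun h => ?_, h1 g M⟩
  have h2 := h1 g⁻¹ _ h
  rw [← Matrix.mul_assoc, ← Matrix.SpecialLinearGroup.coe_mul, inv_mul_cancel,
    Matrix.SpecialLinearGroup.coe_one, Matrix.one_mul] at h2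
  exact h2

/-- divisibility is invariant under multiplication on the right -/
theorem dvd_right_iff (r : ℤ) (g : SL(2, ℤ)) (M : Mt) :
    (∀ k l, r ∣ (M * (g : Mt)) k l) ↔ (∀ k l, r ∣ M k l) := by
  have h1 : ∀ (u : SL(2, ℤ)) (M : Mt), (∀ k l, r ∣ M k l) → ∀ k l, r ∣ (M * (u : Mt)) k l := by
    intro u M h k l
    rw [Matrix.mul_apply]
    exact Finset.dvd_sum fun i _ => (h k i).mul_right _
  refine ⟨fun h => ?_, h1 g M⟩
  have h2 := h1 g⁻¹ _ h
  rw [Matrix.mul_assoc, ← Matrix.SpecialLinearGroup.coe_mul, mul_inv_cancel,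
    Matrix.SpecialLinearGroup.coe_one, Matrix.mul_one] at h2
  exact h2

/-- the bottom left entry can be made zero -/
theorem exists_triang (p n : ℕ) (hp : p.Prime) (E : Mt) (hE : E.det = (p : ℤ) ^ n) :
    ∃ (V : SL(2, ℤ)) (α δ : ℕ) (b : ℤ), α + δ = n ∧
      E * (V : Mt) = !![(p : ℤ) ^ α, b; 0, (p : ℤ) ^ δ] := by
  have hp0 : (0 : ℤ) < p := by exact_mod_cast hp.pos
  have hd : E 0 0 * E 1 1 - E 0 1 * E 1 0 = (p : ℤ) ^ n := by rw [← Matrix.det_fin_two]; exact hE
  have hne : E 1 0 ≠ 0 ∨ E 1 1 ≠ 0 := by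
    by_contra hcon
    push Not at hcon
    rw [hcon.1, hcon.2] at hd
    have : (p : ℤ) ^ n ≠ 0 := by positivity
    apply this
    rw [← hd]
    ring
  have hh0 : 0 < Int.gcd (E 1 0) (E 1 1) := Int.gcd_pos_iff.2 hne
  obtain ⟨c', d', hco, hc, hdd⟩ := Int.exists_gcd_one hh0
  set h : ℤ := (Int.gcd (E 1 0) (E 1 1) : ℤ) with hh
  obtain ⟨x, y, hxy⟩ := Int.isCoprime_iff_gcd_eq_one.2 hco
  set a := E 0 0
  set b := E 0 1
  have hprod : h * (a * d' - b * c') = (p : ℤ) ^ n := by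
    rw [← hd, hc, hdd]
    ring
  obtain ⟨δ, hδ, hhδ⟩ : ∃ δ ≤ n, h = (p : ℤ) ^ δ := by
    have h1 : Int.gcd (E 1 0) (E 1 1) ∣ p ^ n := by
      have : h ∣ (p : ℤ) ^ n := ⟨_, hprod.symm⟩
      rw [hh] at this
      exact_mod_cast this
    obtain ⟨i, hi, h2⟩ := (Nat.dvd_prime_pow hp).1 h1
    refine ⟨i, hi, ?_⟩
    rw [hh, h2]
    push_cast
    rfl
  have h11 : a * d' - b * c' = (p : ℤ) ^ (n - δ) := by
    have h1 : (p : ℤ) ^ δ * (a * d' - b * c') = (p : ℤ) ^ δ * (p : ℤ) ^ (n - δ) := by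
      rw [← hhδ, hprod, hhδ, ← pow_add]
      congr 1
      omega
    exact mul_left_cancel₀ (pow_ne_zero _ hp0.ne') h1
  refine ⟨⟨!![d', x; -c', y], by
      rw [Matrix.det_fin_two_of]
      linear_combination hxy⟩, n - δ, δ, a * x + b * y, by omega, ?_⟩
  show E * !![d', x; -c', y] = _
  rw [Matrix.eta_fin_two E, Matrix.mul_fin_two, ← h11, ← hhδ]
  have e1 : E 0 0 * d' + E 0 1 * -c' = a * d' - b * c' := by ring
  have e2 : E 1 0 * d' + E 1 1 * -c' = 0 := by
    rw [hc, hdd]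
    ring
  have e3 : E 1 0 * x + E 1 1 * y = h := by
    rw [hc, hdd]
    linear_combination h * hxy
  rw [e1, e2, e3]

theorem p26 : S_req := by
  intro p m hp hm E hE S hS1 hS2 hS3
  have key : (S.filter (fun A => ∀ i j, (p : ℤ) ^ 2 ∣ (A * E) i j)).card =
      ((J p).filter (fun j => ∀ k l, (p : ℤ) ^ 2 ∣ (B p j.1 j.2 * E) k l)).card := by
    apply le_antisymm
    · -- from `S` to `J`
      have h1 : ∀ A : Mt, ∃ j : (_ : ℕ) × ℕ, A ∈ S → j ∈ J p ∧
          ∃ g : SL(2, ℤ), A = (g : Mt) * B p j.1 j.2 := by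
        intro A
        by_cases hA : A ∈ S
        · obtain ⟨j, hj, g, hg⟩ := complete p hp A (hS1 A hA)
          exact ⟨j, fun _ => ⟨hj, g, hg⟩⟩
        · exact ⟨⟨0, 0⟩, fun h => absurd h hA⟩
      choose F hF using h1
      refine Finset.card_le_card_of_injOn F ?_ ?_
      · intro A hA
        rw [Finset.mem_coe, Finset.mem_filter] at hA
        obtain ⟨hj, g, hg⟩ := hF A hA.1
        rw [Finset.mem_coe, Finset.mem_filter]
        refine ⟨hj, ?_⟩
        have h2 := hA.2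
        rw [hg, Matrix.mul_assoc] at h2
        exact (dvd_left_iff _ g _).1 h2
      · intro A hA A' hA' hAA
        rw [Finset.mem_coe, Finset.mem_filter] at hA hA'
        obtain ⟨_, g, hg⟩ := hF A hA.1
        obtain ⟨_, g', hg'⟩ := hF A' hA'.1
        apply hS3 A hA.1 A' hA'.1
        refine ⟨g * g'⁻¹, ?_⟩
        have h2 : (g'⁻¹ : SL(2, ℤ)) * A' = B p (F A').1 (F A').2 := by
          conv_lhs => rw [hg']
          rw [← Matrix.mul_assoc, ← Matrix.SpecialLinearGroup.coe_mul, inv_mul_cancel,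
            Matrix.SpecialLinearGroup.coe_one, Matrix.one_mul]
        rw [Matrix.SpecialLinearGroup.coe_mul, Matrix.mul_assoc, h2, ← hAA]
        exact hg
    · -- from `J` to `S`
      have h1 : ∀ j : (_ : ℕ) × ℕ, ∃ A : Mt, j ∈ J p → A ∈ S ∧
          ∃ g : SL(2, ℤ), B p j.1 j.2 = (g : Mt) * A := by
        intro j
        by_cases hj : j ∈ J p
        · obtain ⟨A, hA, g, hg⟩ := hS2 (B p j.1 j.2) (det_B p j.1 j.2 ((mem_J p j).1 hj).1)
          exact ⟨A, fun _ => ⟨hA, g, hg⟩⟩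
        · exact ⟨0, fun h => absurd h hj⟩
      choose F hF using h1
      refine Finset.card_le_card_of_injOn F ?_ ?_
      · intro j hj
        rw [Finset.mem_coe, Finset.mem_filter] at hj
        obtain ⟨hA, g, hg⟩ := hF j hj.1
        rw [Finset.mem_coe, Finset.mem_filter]
        refine ⟨hA, ?_⟩
        have h2 := hj.2
        rw [hg, Matrix.mul_assoc] at h2
        exact (dvd_left_iff _ g _).1 h2
      · intro j hj j' hj' hjj
        rw [Finset.mem_coe, Finset.mem_filter] at hj hj'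
        obtain ⟨_, g, hg⟩ := hF j hj.1
        obtain ⟨_, g', hg'⟩ := hF j' hj'.1
        apply B_inj p hp j j' hj.1 hj'.1 (g * g'⁻¹)
        have h2 : (g'⁻¹ : SL(2, ℤ)) * B p j'.1 j'.2 = F j' := by
          conv_lhs => rw [hg']
          rw [← Matrix.mul_assoc, ← Matrix.SpecialLinearGroup.coe_mul, inv_mul_cancel,
            Matrix.SpecialLinearGroup.coe_one, Matrix.one_mul]
        rw [Matrix.SpecialLinearGroup.coe_mul, Matrix.mul_assoc, h2, ← hjj]
        exact hg
  rw [key]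
  obtain ⟨V, α, δ, b, hαδ, hEV⟩ := exists_triang p _ hp E hE
  have h4 := count p hp α δ (by omega) b (E * (V : Mt)) hEV
  have h5 : (J p).filter (fun j => ∀ k l, (p : ℤ) ^ 2 ∣ (B p j.1 j.2 * E) k l) =
      (J p).filter (fun j => ∀ k l, (p : ℤ) ^ 2 ∣ (B p j.1 j.2 * (E * (V : Mt))) k l) := by
    refine Finset.filter_congr fun j _ => ?_
    rw [← Matrix.mul_assoc, dvd_right_iff]
  have h6 : (Finset.range 3).filter (fun i => ∀ a b, (p : ℤ) ^ i ∣ E a b) =
      (Finset.range 3).filter (fun i => ∀ a b, (p : ℤ) ^ i ∣ (E * (V : Mt)) a b) := by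
    refine Finset.filter_congr fun i _ => ?_
    rw [dvd_right_iff]
  rw [h5, h6, h4]

end

end Pool.Agent.H974.LP
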